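import Pool.Agent.X247.SO.Comp

/-! MP_5c31ca_lc, Q1: it is decidable whether an abelian cellular automaton has a soliton. -/

namespace Pool.Agent.Results.MP_5c31ca_lc.SolitonsDecidable

open Pool.X247.SO

/-- There is a computable function `d` such that for every finite abelian group `A` (enumerated by
`e : A ≃ Fin n`), every radius `r` and all endomorphisms `h_{-r}, …, h_r` of `A`, the value of `d` at
the code `(n, r, group table, tables of the h_j)` tells whether the abelian CA
`F(x)_i = ∑_{j=-r}^{r} h_j (x_{i+j})` has a soliton. -/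
theorem result : ∃ d : Code → Bool, Computable d ∧
    ∀ (A : Type) [AddCommGroup A] (n : ℕ) (e : A ≃ Fin n) (r : ℕ) (h : Fin (2 * r + 1) → A →+ A),
      d (code e r h) = true ↔ HasSoliton (ca r h) :=
  ⟨dec, p_dec.to_comp, fun _ _ _ e r h => dec_iff e r h⟩

end Pool.Agent.Results.MP_5c31ca_lc.SolitonsDecidable
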